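import Pool.Agent.Helper80K5.Hard

/-!
# Circuit-FLIP over an arbitrary finite set of gates: a dichotomy

The definitions are in `Pool.Agent.Helper80K5.Defs` and `Pool.Agent.Helper80K4.Defs`.

Let `B` be a finite set of Boolean functions, given by truth tables, and consider Circuit-FLIP for
circuits whose gates are functions from `B` (`BFlip B` says that this problem has a polynomial-time
solver). If all functions of `B` preserve 0, or all are monotone, or all are affine, then this
problem is solvable in polynomial time. In all other cases it is solvable in polynomial time if and
only if Circuit-FLIP (with AND, OR and NOT gates, `CircuitFlip`) is.

The hard case rests on a version of Post's criterion: if some function of `B` does not preserve 0,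
some function is not monotone and some function is not affine, then NAND is computed by a circuit
over `B` with an additional input which has the value 0. A copy of this additional input is the most
significant output bit, hence it is 0 at each local minimum. (Functions which preserve 1, and
self-dual functions, do not make the problem easier, while functions which preserve 0 do.)
-/

namespace Pool.Agent.Results.MP_a0a715_lc.GateDichotomy

open Pool.Agent.Helper80K4 Pool.Agent.Helper80K5

theorem result (B : Basis) (hB : B.Ok) :
    ((B.Zero ∨ B.Mono ∨ B.Affine) → BFlip B) ∧
      (¬ (B.Zero ∨ B.Mono ∨ B.Affine) → (BFlip B ↔ CircuitFlip)) :=
  dichotomy hB

end Pool.Agent.Results.MP_a0a715_lc.GateDichotomy
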