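import Pool.Agent.Helper80K4.Main

/-!
# Circuit-FLIP: the locality threshold

All definitions are in `Pool.Agent.Helper80K4.Defs`.

`CircuitFlip` says that Circuit-FLIP has a polynomial-time solver. Instances are all valid Boolean
circuits with AND, OR and NOT gates (number of inputs in unary), the cost of the output vector
`y_1, ..., y_m` is the sum of `y_j 2^j`, and a solution is a vector of input bits whose cost is at
most the cost of each vector which differs from it in one bit.

`LocalFlip k` is the same for maps of locality `k`: every output bit reads at most `k` input bits
and is given by the list of these input bits and its truth table.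

`ConjFlip k` is the same for maps each of whose output bits is an AND of at most `k` literals (this
is local search for Max-k-SAT with distinct powers of two as weights).

Theorem: for every `k ≥ 3`, a polynomial-time solver for `ConjFlip k` exists if and only if one
exists for Circuit-FLIP, and the same holds for `LocalFlip k`; and for `k ≤ 2` there is a
polynomial-time solver for `LocalFlip k`, unconditionally.
-/

namespace Pool.Agent.Results.MP_a0a715_lc.LocalityThreshold

open Pool.Agent.Helper80K4

theorem result :
    (∀ k, 3 ≤ k → (ConjFlip k ↔ CircuitFlip) ∧ (LocalFlip k ↔ CircuitFlip)) ∧
    ∀ k ≤ 2, LocalFlip k := main

end Pool.Agent.Results.MP_a0a715_lc.LocalityThreshold
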