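import Pool.Agent.Helper48.Neg.Main

/-!
# Circuit-FLIP: the number of NOT gates

The definitions are in `Pool.Agent.Helper80K4.Defs` and `Pool.Agent.Helper48.Neg.Defs`.

`CircuitFlip` says that Circuit-FLIP has a polynomial-time solver, and `NegFlip k` says that
Circuit-FLIP has a polynomial-time solver on the circuits with at most `k` NOT gates (and any number
of AND and OR gates).

Theorem: `NegFlip 0` and `NegFlip 1` hold, and for every `k ≥ 2` the statements `NegFlip k` and
`CircuitFlip` are equivalent. So Circuit-FLIP is easy for circuits with one NOT gate, and two NOT
gates make it as hard as for arbitrary circuits.

With one NOT gate the zero vector or some unit vector is a local minimum. With two NOT gates the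
vectors fall into four regions, in each of which the cost is an arbitrary monotone function; a path
of improving steps leads from the zero vector through three of these regions, again and again, up to
vectors which code the vectors of `n` bits in dual-rail form; two neighbouring vectors of `n` bits
are then joined by a vector with both rails of one bit, in another region, whose cost lies between.
-/

namespace Pool.Agent.Results.MP_a0a715_lc.NegationThreshold

open Pool.Agent.Helper80K4 Pool.Agent.Helper48.Neg

theorem result : (∀ k ≤ 1, NegFlip k) ∧ ∀ k, 2 ≤ k → (NegFlip k ↔ CircuitFlip) := main

end Pool.Agent.Results.MP_a0a715_lc.NegationThreshold
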