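import Pool.Agent.Helper80K6.Main

/-!
# Circuit-FLIP: local search is exponential already at locality two

The definitions are in `Pool.Agent.Helper80K4.Defs` (maps, cost, local minima) and
`Pool.Agent.Helper80K6.Basic` (`Improves` and `Short`).

`Improves n F x y` says that `y` is obtained from `x` by changing one of the `n` bits, and that the
cost of `F y` is smaller than the cost of `F x`. `Short n F T x` says that some sequence of fewer
than `T` such steps leads from `x` to a local minimum.

For all `k` and `t` there is a map with `N = 7 k + 1 + 3 t` input bits and at most `N ^ 2` output
bits, all of which are ANDs of at most two literals, such that every sequence of improving steps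
which leads from the zero vector to a local minimum has at least `2 ^ k` steps, and the same holds
for all but at most `(7 / 8) ^ t * 2 ^ N` of the `2 ^ N` vectors.

The maps are built by recursion. One step of the recursion adds seven variables to a map all of
whose improving paths from `A` end in `B`. They let the map run from `A` to `B`, then (a lock which
can close only at `B`) force it back to `A` with bits of higher weight, then (a lock which can close
only at `A`) release it, and let it run again. The `3 t` further variables form `t` cells; a cell
whose three variables are zero forces the map to `A` and releases it only there.

(If every output bit reads at most one input bit then no sequence of improving steps has more than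
`N` steps: this is the lemma `Pool.Agent.Helper80K6.local_one`.)
-/

namespace Pool.Agent.Results.MP_a0a715_lc.PathLengths

open Pool.Agent.Helper80K4 Pool.Agent.Helper80K6

theorem result (k t : ℕ) : ∃ M : ConjMap, M.inputs = 7 * k + 1 + 3 * t ∧ M.Valid 2 ∧
    M.outs.length ≤ M.inputs ^ 2 ∧
    ¬ Short M.inputs M.eval (2 ^ k) (List.replicate M.inputs false) ∧
    8 ^ t * Nat.card {x : Fin M.inputs → Bool //
      Short M.inputs M.eval (2 ^ k) (List.ofFn x)} ≤ 7 ^ t * 2 ^ M.inputs :=
  main k t

end Pool.Agent.Results.MP_a0a715_lc.PathLengths
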